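import Pool.Agent.U765.OC.Defs

/-!
# Project OC: statements of the packages
-/

set_option autoImplicit false

namespace Pool.Agent.U765.OC

/-- The Moebius map `g (x - p) / (x - q)`. -/
noncomputable def om (p q g x : ℂ) : ℂ := g * (x - p) / (x - q)

/-- The quarter of the disc `|g| |x - p| < |x - q|`. -/
def quarter (p q g : ℂ) : Set ℂ := {x | ‖om p q g x‖ < 1 ∧ 0 < (om p q g x).re ∧ 0 < (om p q g x).im}

/-- Package LOC. If near the disc `|om| ≤ 1` the set `U` consists of the two axes and of the unit circle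
(in the coordinate `om`), and `X` consists of the crossing points, then the quarter is a triangular face. -/
def S_LOC : Prop := ∀ (p q g : ℂ) (R : ℝ) (U X : Set ℂ), p ≠ q → 1 < R → R < ‖g‖ →
  (∀ x, ‖g‖ * ‖x - p‖ < R * ‖x - q‖ →
    (x ∈ U ↔ (om p q g x).re = 0 ∨ (om p q g x).im = 0 ∨ ‖om p q g x‖ = 1)) →
  (∀ x, ‖g‖ * ‖x - p‖ < R * ‖x - q‖ →
    (x ∈ X ↔ om p q g x = 0 ∨ (‖om p q g x‖ = 1 ∧ ((om p q g x).re = 0 ∨ (om p q g x).im = 0)))) →
  TriFace U X (quarter p q g)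

/-- Package CIRC (a): numeric criterion of orthogonality. -/
def S_ORTH : Prop := ∀ (c c' : ℂ) (r r' : ℝ), 0 < r → 0 < r' → ‖c - c'‖ ^ 2 = r ^ 2 + r' ^ 2 →
  MeetOrth c r c' r'

/-- Package CIRC (b): the crossing points are finite in number, each is on two circles only, and there are
at least `2 |P|` if `P` is a set of pairs of orthogonal circles without repetition. -/
def S_CNT : Prop := ∀ (ι : Type) [Fintype ι] (A : Arr ι), A.crossings.Finite ∧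
  (∀ i j k, i ≠ j → i ≠ k → j ≠ k → ∀ x, x ∈ circ (A.c i) (A.r i) → x ∈ circ (A.c j) (A.r j) →
    x ∉ circ (A.c k) (A.r k)) ∧
  ∀ P : Finset (ι × ι), (∀ x ∈ P, x.1 ≠ x.2 ∧ ‖A.c x.1 - A.c x.2‖ ^ 2 = A.r x.1 ^ 2 + A.r x.2 ^ 2 ∧
    x.swap ∉ P) → 2 * P.card ≤ A.crossings.ncard

/-- Package RING: `m` rings of `m` circles, and the `m` concentric circles through their centres. -/
def S_RING : Prop := ∀ m : ℕ, 6 ≤ m → ∃ (c : Fin m × Option (Fin m) → ℂ)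
  (r : Fin m × Option (Fin m) → ℝ) (P : Finset ((Fin m × Option (Fin m)) × (Fin m × Option (Fin m)))),
  (∀ i, 0 < r i) ∧
  (∀ i j, i ≠ j → ‖c i - c j‖ ^ 2 = r i ^ 2 + r j ^ 2 ∨ (r i + r j) ^ 2 < ‖c i - c j‖ ^ 2 ∨
    ‖c i - c j‖ ^ 2 < (r i - r j) ^ 2) ∧
  (∀ x ∈ P, x.1 ≠ x.2 ∧ ‖c x.1 - c x.2‖ ^ 2 = r x.1 ^ 2 + r x.2 ^ 2 ∧ x.swap ∉ P) ∧
  4 * m ^ 2 ≤ P.card + 2 * m

end Pool.Agent.U765.OC
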