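import Mathlib

/-!
# Arrangements of orthogonal circles: definitions

The Euclidean plane is `ℂ`.
-/

set_option autoImplicit false

namespace Pool.Agent.U765.OC

/-- The circle with centre `c` and radius `r` in the Euclidean plane `ℂ`. -/
abbrev circ (c : ℂ) (r : ℝ) : Set ℂ := Metric.sphere c r

/-- The two circles intersect orthogonally: they have exactly two common points, and at each of them
their radii, hence their tangent lines, are perpendicular. -/
def MeetOrth (c : ℂ) (r : ℝ) (c' : ℂ) (r' : ℝ) : Prop :=
  (circ c r ∩ circ c' r').ncard = 2 ∧
    ∀ p ∈ circ c r ∩ circ c' r', inner ℝ (p - c) (p - c') = 0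

/-- `F` is a triangular face of the complement of the set `U`, where `X` is the set of the crossing points:
`F` is a connected component of the complement of `U`, and its boundary consists of exactly three arcs.
Here an (open) arc is a connected component of `U \ X`; the three arcs are different, their end points are
three different crossing points `v 0, v 1, v 2`, and the arc `E i` joins `v i` and `v (i + 1)`. -/
def TriFace (U X F : Set ℂ) : Prop :=
  (∃ x ∈ Uᶜ, F = connectedComponentIn Uᶜ x) ∧
  ∃ (E : Fin 3 → Set ℂ) (v : Fin 3 → ℂ), Function.Injective E ∧ Function.Injective v ∧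
    (∀ i, ∃ x ∈ U \ X, E i = connectedComponentIn (U \ X) x) ∧ (∀ i, v i ∈ X) ∧
    (∀ i, closure (E i) = E i ∪ {v i, v (i + 1)}) ∧ frontier F = ⋃ i, closure (E i)

/-- An arrangement of orthogonal circles, indexed by `ι`: any two of the circles are disjoint or intersect
orthogonally. (So circles with different indices are different.) -/
structure Arr (ι : Type) where
  /-- the centres -/
  c : ι → ℂ
  /-- the radii -/
  r : ι → ℝ
  pos : ∀ i, 0 < r i
  pw : ∀ i j, i ≠ j → Disjoint (circ (c i) (r i)) (circ (c j) (r j)) ∨ MeetOrth (c i) (r i) (c j) (r j)

variable {ι : Type}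

/-- The union of the circles. -/
def Arr.union (A : Arr ι) : Set ℂ := ⋃ i, circ (A.c i) (A.r i)

/-- The crossing points: the points which are on two different circles. -/
def Arr.crossings (A : Arr ι) : Set ℂ :=
  {p | ∃ i j, i ≠ j ∧ p ∈ circ (A.c i) (A.r i) ∧ p ∈ circ (A.c j) (A.r j)}

/-- The triangular faces of the arrangement. -/
def Arr.triangularFaces (A : Arr ι) : Set (Set ℂ) := {F | TriFace A.union A.crossings F}

end Pool.Agent.U765.OC
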